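import Pool.Agent.Helper303.Slide4
import Pool.Agent.Helper303.HullB
import Pool.Agent.Helper303.Conn

set_option autoImplicit false
open MeasureTheory

namespace Pool.Agent.Results.MP_eccbcf_an.ConnectedDomain

/-- `φ` is continuous and plurisubharmonic on `U ⊆ ℂ²`: it satisfies the sub-mean value inequality
on the boundary circle of every closed complex affine disc contained in `U`. -/
def PSH (U : Set (EuclideanSpace ℂ (Fin 2))) (φ : EuclideanSpace ℂ (Fin 2) → ℝ) : Prop :=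
  ContinuousOn φ U ∧
    ∀ a ∈ U, ∀ v : EuclideanSpace ℂ (Fin 2), ∀ r : ℝ, 0 < r →
      (∀ ζ : ℂ, ‖ζ‖ ≤ r → a + ζ • v ∈ U) →
        φ a ≤ (2 * Real.pi)⁻¹ *
          ∫ θ in (0:ℝ)..(2 * Real.pi),
            φ (a + ((r : ℂ) * Complex.exp ((θ : ℂ) * Complex.I)) • v)

/-- An open set with a continuous plurisubharmonic exhaustion function (a Stein open set). -/
def Stein (V : Set (EuclideanSpace ℂ (Fin 2))) : Prop :=
  IsOpen V ∧ ∃ ψ : EuclideanSpace ℂ (Fin 2) → ℝ, PSH V ψ ∧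
    ∀ c : ℝ, IsCompact {z | z ∈ V ∧ ψ z ≤ c}

/-- The hull of `K` with respect to the functions continuous on the closure of `Ω` and
plurisubharmonic on `Ω`. -/
def hull (Ω K : Set (EuclideanSpace ℂ (Fin 2))) : Set (EuclideanSpace ℂ (Fin 2)) :=
  {z | z ∈ closure Ω ∧ ∀ φ : EuclideanSpace ℂ (Fin 2) → ℝ,
    ContinuousOn φ (closure Ω) → PSH Ω φ → φ z ≤ sSup (φ '' K)}

/-- The boundary hull condition. -/
def BoundaryHullCondition (Ω : Set (EuclideanSpace ℂ (Fin 2))) : Prop :=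
  ∀ K : Set (EuclideanSpace ℂ (Fin 2)), K ⊆ closure Ω → IsCompact K →
    hull Ω K ∩ frontier Ω = K ∩ frontier Ω

/-- The closure of `Ω` has a Stein neighbourhood basis. -/
def SteinNeighbourhoodBasis (Ω : Set (EuclideanSpace ℂ (Fin 2))) : Prop :=
  ∀ U : Set (EuclideanSpace ℂ (Fin 2)), IsOpen U → closure Ω ⊆ U →
    ∃ V, Stein V ∧ closure Ω ⊆ V ∧ V ⊆ U

/-- There is a bounded connected pseudoconvex open set in `ℂ²` with smooth boundary that satisfies
the boundary hull condition and whose closure has no Stein neighbourhood basis. -/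
theorem result :
    ∃ (Ω : Set (EuclideanSpace ℂ (Fin 2))) (ρ : EuclideanSpace ℂ (Fin 2) → ℝ),
      ContDiff ℝ ((⊤ : ℕ∞) : WithTop ℕ∞) ρ ∧ Ω = {z | ρ z < 0} ∧
      (∀ z ∈ frontier Ω, ρ z = 0 ∧ fderiv ℝ ρ z ≠ 0) ∧
      Bornology.IsBounded Ω ∧ IsConnected Ω ∧ Stein Ω ∧
      BoundaryHullCondition Ω ∧ ¬ SteinNeighbourhoodBasis Ω := by
  obtain ⟨Q⟩ := Helper303.exists_cheese
  have hbd : Bornology.IsBounded (Helper303.Om Q) :=
    (Helper303.isBounded_le Q).subset fun x hx =>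
      (Helper303.mem_le Q x 0).2 ((Helper303.mem_Om Q x).1 hx).le
  refine ⟨Helper303.Om Q, Helper303.rho Q, Helper303.contDiff_rho Q, rfl, fun z hz =>
    ⟨Helper303.frontier_Om Q hz, Helper303.fderiv_rho_ne Q (Helper303.frontier_Om Q hz)⟩, hbd,
    Helper303.isConnected_Om Q, ⟨Helper303.isOpen_Om Q, Helper303.ex Q, Helper303.ex_psh Q,
      Helper303.ex_compact Q⟩, Helper303.hull_all Q, fun H => ?_⟩
  obtain ⟨V, ⟨hV, ψ, hψ, hcomp⟩, hcl, hVU⟩ :=
    H {x | Helper303.rho Q x < Helper303.a1c / 4}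
    (isOpen_lt (Helper303.continuous_rho Q) continuous_const)
    (by
      rw [Helper303.closure_Om]
      intro x hx
      have h1 := (Helper303.mem_le Q x 0).1 hx
      have h2 : Helper303.a1c = 1 / 200000 := rfl
      show Helper303.rho Q x < Helper303.a1c / 4
      rw [h2]
      linarith)
  exact Helper303.no_stein Q hV hcl hVU hψ hcomp

end Pool.Agent.Results.MP_eccbcf_an.ConnectedDomain
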